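import Pool.Agent.W2helper26.CN.Defs
import Pool.Agent.W953.KC.Any

/-!
# Windows with few NOT gates from a circuit for all graphs
-/

set_option autoImplicit false

namespace Pool.Agent.W2helper26.CN

open Finset Pool.Agent Pool.Agent.W2helper86.KQ Pool.Agent.H540R2

/-- A circuit of size `S` for the clique problem gives circuits of size `n ^ (O(v)) * S` with `t`
NOT gates for the windows of `(v + 1) * 2 ^ t` edge numbers. -/
theorem up (n k v t m : ℕ) (C : Circuit (n.choose 2))
    (hC : ∀ x, C.eval x = true ↔ ¬ (graph x).CliqueFree k) :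
    ∃ C' : Circuit (n.choose 2), C'.nots ≤ t ∧
      C'.size ≤ 2 ^ 21 * (n.choose 2 + 1) ^ (v + 14) * (C.size + 1) ∧
      ∀ x, m ≤ edges x → edges x < m + (v + 1) * 2 ^ t →
        (C'.eval x = true ↔ ¬ (graph x).CliqueFree k) := by
  classical
  obtain ⟨C', h1, h2, h3⟩ := W953.KC.to_windows (f := C.eval) (fun x y hxy => by
    rw [Bool.le_iff_imp, hC, hC]
    intro h h'
    apply h
    refine SimpleGraph.CliqueFree.anti ?_ h'
    rw [graph_eq, graph_eq]
    exact W953.KC.gr_mono _ hxy) C (fun x => rfl) m v t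
  exact ⟨C', h1, h2, fun x hx1 hx2 => by rw [h3 x hx1 hx2]; exact hC x⟩

end Pool.Agent.W2helper26.CN
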