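import Pool.Agent.W2helper26.CN.Defs

/-!
# Piece BLK: the hard distribution for designs of the kind `Des`
-/

set_option autoImplicit false

namespace Pool.Agent.W2helper26.CN

open Finset Pool.Agent.H520R2 Pool.Agent.H520R2.NM Pool.Agent.H559R4 Pool.Agent.H559R8
  Pool.Agent.H559R9 Pool.Agent.H559R10

section DesUnion

variable {n s q P κ : ℕ}

/-- The union of the graphs `Y p`, without the edges inside the parts. -/
def Des.union (D : Des n s q P κ) (Y : Fin P → SimpleGraph (Fin s × Fin q)) :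
    SimpleGraph (Fin n) where
  Adj u v := ∃ p a b, D.pt p a = u ∧ D.pt p b = v ∧ a.1 ≠ b.1 ∧ (Y p).Adj a b
  symm := ⟨by
    rintro u v ⟨p, a, b, h1, h2, h3, h4⟩
    exact ⟨p, b, a, h2, h1, h3.symm, h4.symm⟩⟩
  loopless := ⟨by
    rintro u ⟨p, a, b, h1, h2, h3, h4⟩
    have := D.inj p (h1.trans h2.symm)
    exact h3 (congrArg Prod.fst this)⟩

theorem Des.union_mono (D : Des n s q P κ) {Y Y' : Fin P → SimpleGraph (Fin s × Fin q)}
    (h : Y ≤ Y') : D.union Y ≤ D.union Y' := by
  rintro u v ⟨p, a, b, h1, h2, h3, h4⟩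
  exact ⟨p, a, b, h1, h2, h3, h p h4⟩

/-- The input of a circuit that encodes the graphs `Y p`. -/
noncomputable def Des.enc (D : Des n s q P κ) (Y : Fin P → SimpleGraph (Fin s × Fin q)) :
    Sym2 (Fin n) → Bool := by
  classical
  exact fun e => decide (e ∈ (D.union Y).edgeSet)

theorem Des.enc_graph (D : Des n s q P κ) (Y : Fin P → SimpleGraph (Fin s × Fin q)) :
    SimpleGraph.fromEdgeSet {e | D.enc Y e = true} = D.union Y := by
  have : {e | D.enc Y e = true} = (D.union Y).edgeSet := by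
    ext e
    simp [Des.enc]
  rw [this, SimpleGraph.fromEdgeSet_edgeSet]

theorem Des.enc_mono (D : Des n s q P κ) {Y Y' : Fin P → SimpleGraph (Fin s × Fin q)}
    (h : Y ≤ Y') : D.enc Y ≤ D.enc Y' := by
  intro e
  unfold Des.enc
  rw [Bool.le_iff_imp]
  simp only [decide_eq_true_eq]
  intro he
  exact SimpleGraph.edgeSet_mono (D.union_mono h) he

open Classical in
/-- The adjacency of two given points, as a function of one of the graphs `Y p`. -/
theorem Des.adj_base (D : Des n s q P κ) (Y : Fin P → SimpleGraph (Fin s × Fin q))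
    (J : Fin P) (u v : Fin n) :
    (fun G => decide ((D.union (Function.update Y J G)).Adj u v)) ∈ GB (Fin s × Fin q) := by
  by_cases hc : ∃ p, p ≠ J ∧ ∃ a b, D.pt p a = u ∧ D.pt p b = v ∧ a.1 ≠ b.1 ∧ (Y p).Adj a b
  · left
    refine ⟨true, ?_⟩
    funext G
    rw [decide_eq_true_eq]
    obtain ⟨p, hp, a, b, h1, h2, h3, h4⟩ := hc
    exact ⟨p, a, b, h1, h2, h3, by rw [Function.update_of_ne hp]; exact h4⟩
  · by_cases hJ : ∃ a b, D.pt J a = u ∧ D.pt J b = v ∧ a.1 ≠ b.1
    · obtain ⟨a, b, ha, hb, hab⟩ := hJ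
      right
      refine ⟨a, b, ?_⟩
      funext G
      unfold adjFn
      congr 1
      apply propext
      constructor
      · rintro ⟨p, a', b', h1, h2, h3, h4⟩
        by_cases hp : p = J
        · subst hp
          rw [Function.update_self] at h4
          have e1 : a' = a := D.inj _ (h1.trans ha.symm)
          have e2 : b' = b := D.inj _ (h2.trans hb.symm)
          rw [e1, e2] at h4
          exact h4
        · rw [Function.update_of_ne hp] at h4
          exact absurd ⟨p, hp, a', b', h1, h2, h3, h4⟩ hc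
      · intro h
        exact ⟨J, a, b, ha, hb, hab, by rw [Function.update_self]; exact h⟩
    · left
      refine ⟨false, ?_⟩
      funext G
      rw [decide_eq_false_iff_not]
      rintro ⟨p, a, b, h1, h2, h3, h4⟩
      by_cases hp : p = J
      · subst hp
        exact hJ ⟨a, b, h1, h2, h3⟩
      · rw [Function.update_of_ne hp] at h4
        exact hc ⟨p, hp, a, b, h1, h2, h3, h4⟩

theorem Des.enc_base (D : Des n s q P κ) (Y : Fin P → SimpleGraph (Fin s × Fin q))
    (J : Fin P) (f : (Sym2 (Fin n) → Bool) → Bool) (hf : f ∈ VB (Sym2 (Fin n))) :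
    f ∘ (fun G => D.enc (Function.update Y J G)) ∈ GB (Fin s × Fin q) := by
  classical
  rcases hf with ⟨c, rfl⟩ | ⟨e, rfl⟩
  · exact Or.inl ⟨c, rfl⟩
  · induction e using Sym2.ind with
    | _ u v =>
      have h := D.adj_base Y J u v
      convert h using 1
      funext G
      simp only [Function.comp, Des.enc, SimpleGraph.mem_edgeSet]

/-- A clique of the union with `κ + 1` vertices is contained in one block. -/
theorem des_block_clique (D : Des n s q P κ) (hκ : 1 ≤ κ) (Y : Fin P → SimpleGraph (Fin s × Fin q))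
    (h : ¬ (D.union Y).CliqueFree (κ + 1)) : ∃ p, ¬ (Y p).CliqueFree (κ + 1) := by
  classical
  unfold SimpleGraph.CliqueFree at h
  push Not at h
  obtain ⟨t, ht⟩ := h
  have hcl := ht.isClique
  have hcard := ht.card_eq
  obtain ⟨f, hf, hfs⟩ : ∃ f : Fin (κ + 1) → Fin n, Function.Injective f ∧ ∀ i, f i ∈ t :=
    ⟨t.orderEmbOfFin hcard, (t.orderEmbOfFin hcard).injective,
      fun i => t.orderEmbOfFin_mem hcard i⟩
  have hEx : ∀ i j, i ≠ j → ∃ p a b, D.pt p a = f i ∧ D.pt p b = f j ∧ a.1 ≠ b.1 ∧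
      (Y p).Adj a b := by
    intro i j hij
    obtain ⟨p, a, b, h⟩ := hcl (hfs i) (hfs j) (fun h => hij (hf h))
    exact ⟨p, a, b, h⟩
  obtain ⟨p, hp⟩ := D.cl f (fun i j hij => by
    obtain ⟨p, a, b, h1, h2, h3, _⟩ := hEx i j hij
    exact ⟨p, a, b, h1, h2, h3⟩)
  have hall : ∀ i j, i ≠ j → ∃ a b, D.pt p a = f i ∧ D.pt p b = f j ∧ a.1 ≠ b.1 ∧
      (Y p).Adj a b := by
    intro i j hij
    obtain ⟨p', a, b, h1, h2, h3, h4⟩ := hEx i j hij
    obtain rfl := hp i j hij p' a b h1 h2 h3
    exact ⟨a, b, h1, h2, h3, h4⟩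
  have : Nontrivial (Fin (κ + 1)) := Fin.nontrivial_iff_two_le.2 (by omega)
  -- the vertices of the block
  have hg : ∀ i, ∃ a, D.pt p a = f i := by
    intro i
    obtain ⟨j, hj⟩ := exists_ne i
    obtain ⟨a, b, h1, _⟩ := hall i j hj.symm
    exact ⟨a, h1⟩
  choose g hg using hg
  have hadj : ∀ i j, i ≠ j → (g i).1 ≠ (g j).1 ∧ (Y p).Adj (g i) (g j) := by
    intro i j hij
    obtain ⟨a, b, h1, h2, h3, h4⟩ := hall i j hij
    have ha : a = g i := D.inj p (h1.trans (hg i).symm)
    have hb : b = g j := D.inj p (h2.trans (hg j).symm)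
    rw [← ha, ← hb]
    exact ⟨h3, h4⟩
  have hinj : Function.Injective g := by
    intro i j h
    by_contra hij
    exact (hadj i j hij).1 (by rw [h])
  refine ⟨p, ?_⟩
  unfold SimpleGraph.CliqueFree
  push Not
  refine ⟨univ.image g, ?_⟩
  rw [SimpleGraph.isNClique_iff]
  constructor
  · intro u hu v hv huv
    simp only [coe_image, coe_univ, Set.image_univ, Set.mem_range] at hu hv
    obtain ⟨i, rfl⟩ := hu
    obtain ⟨j, rfl⟩ := hv
    exact (hadj i j (fun h => huv (by rw [h]))).2
  · rw [card_image_of_injective _ hinj, card_univ, Fintype.card_fin]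

/-- A clique with one vertex in each class of a block is a clique of the union. -/
theorem des_union_clique (D : Des n s q P κ) (Y : Fin P → SimpleGraph (Fin s × Fin q))
    (p : Fin P) (hp : Tcl (Y p)) : ¬ (D.union Y).CliqueFree s := by
  classical
  obtain ⟨π, hπ⟩ := hp
  unfold SimpleGraph.CliqueFree
  push Not
  have hinj : Function.Injective (fun i : Fin s => D.pt p (i, π i)) := by
    intro i j h
    exact congrArg Prod.fst (D.inj p h)
  refine ⟨univ.image (fun i => D.pt p (i, π i)), ?_⟩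
  rw [SimpleGraph.isNClique_iff]
  constructor
  · intro u hu v hv huv
    simp only [coe_image, coe_univ, Set.image_univ, Set.mem_range] at hu hv
    obtain ⟨i, rfl⟩ := hu
    obtain ⟨j, rfl⟩ := hv
    have hij : i ≠ j := fun h => huv (by rw [h])
    refine ⟨p, _, _, rfl, rfl, hij, ?_⟩
    rcases lt_or_gt_of_ne hij with h | h
    · exact hπ i j h
    · exact (hπ j i h).symm
  · rw [card_image_of_injective _ hinj, card_univ, Fintype.card_fin]

end DesUnion

open Classical in
theorem des_gap_block {κ s b c S P n : ℕ} (hκ : 2 ≤ κ) (_hs : κ + 1 ≤ s) (hb : 2 ≤ b) (hc : 1 ≤ c)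
    (hP : 0 < P) (D : Des n s (2 ^ b) P κ)
    (hq : 8 * c * (64 * ((κ + 1) * b * κ * κ)) ≤ 2 ^ b)
    (hS : 4 * c * (S * apx2 κ b ^ 2) ≤ 2 ^ ((κ + 1) * b)) :
    ∃ (Λ : Type) (_ : Fintype Λ) (_ : Nonempty Λ) (x : Λ → Sym2 (Fin n) → Bool),
      (∀ l, PromiseGap s (κ + 1) (x l)) ∧
      ∀ (N : ℕ) (C : Circuit (Sym2 (Fin n)) N) (out : Wire (Sym2 (Fin n)) N),
        C.size + C.fanins.sum ≤ S → c * (C.fanins.map (· + 1)).prod ≤ P →
        2 * c * (univ.filter (fun l =>
          RightGap s (κ + 1) (x l) (out.eval (x l) (C.vals (x l))))).card <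
          (c + 2) * Fintype.card Λ := by
  have : Nonempty (Fin κ) := ⟨⟨0, by omega⟩⟩
  have : Nonempty (Fin (2 ^ b)) := ⟨⟨0, by positivity⟩⟩
  let W := Fin s × Fin (2 ^ b)
  let E' : (Fin P → Set (Sym2 W)) → Sym2 (Fin n) → Bool := fun y =>
    D.enc (fun j => SimpleGraph.fromEdgeSet (y j))
  obtain ⟨Λ, hΛ1, hΛ2, Y, yes, hyes, hno, hD⟩ := gap_dist (ι := Sym2 (Fin n)) (α := Sym2 W)
    (Pt := Fin s → Fin (2 ^ b)) (Ng := W → Fin κ) P hP
    (fun π => (posG (fun x : W => x) π).edgeSet) (fun ω => (negG ω).edgeSet) c S E'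
    (fun y y' h => D.enc_mono (fun j => SimpleGraph.fromEdgeSet_mono (h j)))
    (by
      intro z J g hg
      have hg' := base_conv D.enc (fun Y J f hf => D.enc_base Y J f hf) z J g S hg
      have key := adv_avg_gap (k := s) (κ := κ) (q := 2 ^ b) (B := (κ + 1) * b) (J := κ)
        (r := 64 * ((κ + 1) * b * κ * κ)) (s := S) (c := c) hκ hc
        (Nat.mul_pos (by omega) (by omega)) (by omega) le_rfl Nat.lt_two_pow_self hq
        (by
          rw [← pow_mul, mul_comm b]
          exact hS)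
        (by
          have h4 : 2 ^ ((κ + 1) * b) ≤ 4 ^ ((κ + 1) * b) := Nat.pow_le_pow_left (by norm_num) _
          unfold apx2 at hS
          refine le_trans ?_ (hS.trans h4)
          apply Nat.mul_le_mul_right
          omega)
        (g ∘ fun G : SimpleGraph W => G.edgeSet) hg'
      exact key)
  -- the graphs
  have hgr : ∀ l, SimpleGraph.fromEdgeSet {e | E' (Y l) e = true} =
      D.union (fun j => SimpleGraph.fromEdgeSet (Y l j)) := fun l => D.enc_graph _
  have h1 : ∀ l, yes l → ¬ (D.union (fun j => SimpleGraph.fromEdgeSet (Y l j))).CliqueFree s := by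
    intro l hl
    obtain ⟨j, π, hj⟩ := hyes l hl
    apply des_union_clique D _ j
    simp only [hj, SimpleGraph.fromEdgeSet_edgeSet]
    exact tcl_posG π
  have h2 : ∀ l, ¬ yes l →
      (D.union (fun j => SimpleGraph.fromEdgeSet (Y l j))).CliqueFree (κ + 1) := by
    intro l hl
    by_contra hcon
    obtain ⟨p, hp⟩ := des_block_clique D (by omega) _ hcon
    apply hp
    rcases hno l hl p with ⟨ω, hω⟩ | h0
    · rw [hω, SimpleGraph.fromEdgeSet_edgeSet]
      exact negG_cliqueFree ω
    · rw [h0, SimpleGraph.fromEdgeSet_empty]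
      exact SimpleGraph.cliqueFree_bot (by omega)
  refine ⟨Λ, hΛ1, hΛ2, fun l => E' (Y l), ?_, ?_⟩
  · intro l
    unfold PromiseGap
    simp only [hgr]
    by_cases hl : yes l
    · exact Or.inl (h1 l hl)
    · exact Or.inr (h2 l hl)
  · intro N C out hC1 hC2
    refine lt_of_le_of_lt (Nat.mul_le_mul_left _ (card_le_card ?_)) (hD N C out hC1 hC2)
    intro l hl
    rw [mem_filter] at hl ⊢
    refine ⟨mem_univ _, ?_⟩
    obtain ⟨hr1, hr2⟩ := hl.2
    simp only [hgr] at hr1 hr2
    constructor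
    · intro ho
      by_contra hl
      have := hr2 (h2 l hl)
      rw [ho] at this
      exact absurd this (by simp)
    · intro hl
      exact hr1 (h1 l hl)

/-- PIECE BLK -/
theorem p_blk : P_BLK := by
  intro κ s b c S P n hκ hs hb hc hP D hq hS
  exact des_gap_block hκ hs hb hc hP D hq hS

end Pool.Agent.W2helper26.CN
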