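import Pool.Agent.W2helper26.CN.Defs

/-!
# The number of NOT gates in circuits for all graphs
-/

set_option autoImplicit false

namespace Pool.Agent.W2helper26.CN

open Finset Filter Pool.Agent Pool.Agent.W2helper86.KQ

/-- Circuits of polynomial size for all graphs need `2 log₂ n - O(log log n)` NOT gates. -/
def P_THR : Prop := ∀ k t : ℕ → ℕ, (∀ B : ℕ, ∀ᶠ n : ℕ in atTop, (Nat.log 2 n) ^ B ≤ k n) →
  (∀ᶠ n : ℕ in atTop, 25 * k n ≤ n) → PolyOn k k t (fun n => n.choose 2 + 1) →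
  ∃ B : ℕ, ∀ᶠ n : ℕ in atTop, n ^ 2 ≤ 2 ^ t n * (Nat.log 2 n) ^ B

theorem wt_bound {n : ℕ} (x : Fin (n.choose 2) → Bool) : edges x < 0 + (n.choose 2 + 1) := by
  have := W953.NW.wt_le x
  have h : edges x = W953.NW.wt x := rfl
  omega

theorem thr (hLOW : P_LOW) : P_THR := by
  obtain ⟨A, hA⟩ := hLOW
  intro k t hk1 hk2 ⟨a, ha⟩
  refine ⟨(2 * (a + 3)) * A, ?_⟩
  have hlog : Tendsto (fun n : ℕ => Nat.log 2 n) atTop atTop := by
    rw [tendsto_atTop]
    intro b
    filter_upwards [eventually_ge_atTop (2 ^ b)] with n hn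
    exact Nat.le_log_of_pow_le (by norm_num) hn
  filter_upwards [hk1 (2 * (a + 3) * A), hk2, eventually_ge_atTop 2,
    hlog.eventually (eventually_ge_atTop 7)] with n h1 h2 hn hl
  obtain ⟨L, hL⟩ : ∃ L, L = Nat.log 2 n := ⟨_, rfl⟩
  rw [← hL] at h1 hl ⊢
  obtain ⟨w, hw⟩ : ∃ w, w = a * (L + 1) + 6 := ⟨_, rfl⟩
  have hwL : w * (L + 1) ≤ L ^ (2 * (a + 3)) := by
    have e1 : L + 1 ≤ L ^ 2 := by nlinarith
    have e2 : a + 6 ≤ L ^ (a + 1) := by
      clear hw h1 ha
      induction a with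
      | zero => simpa using (by omega : 6 ≤ L)
      | succ a ih =>
        calc a + 1 + 6 ≤ (a + 6) * 2 := by omega
          _ ≤ L ^ (a + 1) * L := Nat.mul_le_mul ih (by omega)
          _ = _ := by ring
    have e3 : w ≤ (a + 6) * (L + 1) := by rw [hw]; nlinarith
    calc w * (L + 1) ≤ ((a + 6) * (L + 1)) * (L + 1) := Nat.mul_le_mul_right _ e3
      _ ≤ (L ^ (a + 1) * L ^ 2) * L ^ 2 := by gcongr
      _ = L ^ (a + 5) := by ring
      _ ≤ L ^ (2 * (a + 3)) := Nat.pow_le_pow_right (by omega) (by omega)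
  have hwA : (w * (L + 1)) ^ A ≤ L ^ (2 * (a + 3) * A) := by
    rw [pow_mul]
    exact Nat.pow_le_pow_left hwL A
  obtain ⟨R, hR1, hR2⟩ := ha n hn 0
  have hn2 : n < 2 ^ (L + 1) := by rw [hL]; exact Nat.lt_pow_succ_log_self (by norm_num) n
  have key := hA n (k n) 0 (t n) w (n ^ 2) (k n * n) hn (by omega) (by rw [← hL]; exact hwA.trans h1)
    le_rfl (by nlinarith) le_rfl R (fun o => ⟨(hR1 o).1, (hR1 o).2.trans (by
      calc n ^ a ≤ (2 ^ (L + 1)) ^ a := Nat.pow_le_pow_left hn2.le a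
        _ = 2 ^ (a * (L + 1)) := by rw [← pow_mul, mul_comm]
        _ ≤ 2 ^ w := Nat.pow_le_pow_right (by norm_num) (by omega))⟩)
    (fun x _ _ => by
      have h3 := hR2 x (Nat.zero_le _) (wt_bound x)
      have h4 : (1 : ℝ) / w ≤ 1 / 6 := by
        apply one_div_le_one_div_of_le (by norm_num)
        have : 6 ≤ w := by omega
        exact_mod_cast this
      rw [add_zero]
      refine le_trans ?_ h3
      linarith)
  rw [← hL] at key
  refine key.trans (Nat.mul_le_mul_left _ ?_)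
  rw [show (0 + 1) * w * (L + 1) = w * (L + 1) by ring]
  exact hwA

end Pool.Agent.W2helper26.CN
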