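import Pool.Agent.W2helper26.CN.LOW
import Pool.Agent.W2helper26.CN.UP
import Pool.Agent.W2helper26.CN.THR
import Pool.Agent.W2helper26.CN.BLK
import Pool.Agent.W2helper11.CN.DES
import Pool.Agent.W2helper11.CN.EQ
import Pool.Agent.W2helper11.CN.NUM
import Pool.Agent.W2helper59.CN.PAD
import Pool.Agent.W2helper59.CN.SUB

/-!
# The clique problem on short windows of edge numbers: all parts
-/

set_option autoImplicit false

namespace Pool.Agent.W2helper26.CN

theorem final_eq : P_EQ := W2helper11.CN.p_eq

theorem final_low : P_LOW :=
  low W2helper11.CN.p_des p_blk W2helper59.CN.p_sub W2helper59.CN.p_pad W2helper11.CN.p_num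

theorem final_thr : P_THR := thr final_low

end Pool.Agent.W2helper26.CN
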