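import Mathlib
import Pool.Agent.H559R10.Gap
import Pool.Agent.W953.KC.Rand
import Pool.Agent.W2helper86.KQ.Final

/-!
# The clique problem with few NOT gates on short windows of edge numbers: definitions and pieces
-/

set_option autoImplicit false

namespace Pool.Agent.W2helper26.CN

open Finset Pool.Agent Pool.Agent.W2helper86.KQ

/-- The point `v = (i, y)` (row `i`, height `y`) lies on the line `ℓ = (a, b)`, that is
`y = a + b i`. -/
def On {s p : ℕ} (ℓ : ZMod p × ZMod p) (v : Fin s × ZMod p) : Prop :=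
  v.2 = ℓ.1 + ℓ.2 * ((v.1.1 : ℕ) : ZMod p)

/-- PIECE LINES. Many lines such that all cliques of `k` points (points in different rows, any two on a
common selected line) are collinear. Proof: random colouring of the lines with `s ^ 2` colours. -/
def P_LINES : Prop := ∀ (s p k L : ℕ), p.Prime → 2 ≤ s → s ≤ p → s * p ≤ 2 ^ L →
  (3 * L + 5) ^ 2 * (L + 2) < k →
  ∃ A : Finset (ZMod p × ZMod p), p ^ 2 ≤ s ^ 2 * A.card ∧
    ∀ τ : Fin k → Fin s × ZMod p, (∀ x y, x ≠ y → (τ x).1 ≠ (τ y).1) →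
      (∀ x y, x ≠ y → ∃ ℓ ∈ A, On ℓ (τ x) ∧ On ℓ (τ y)) → ∃ ℓ ∈ A, ∀ x, On ℓ (τ x)

/-- `P` blocks of `s * q` points (in `s` parts) on `n` points, such that any `κ + 1` points which are
pairwise in common blocks (in different parts) are in one block, and in that block only. -/
structure Des (n s q P κ : ℕ) where
  /-- the points of the blocks -/
  pt : Fin P → Fin s × Fin q → Fin n
  inj : ∀ p, Function.Injective (pt p)
  cl : ∀ τ : Fin (κ + 1) → Fin n,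
    (∀ x y, x ≠ y → ∃ p a b, pt p a = τ x ∧ pt p b = τ y ∧ a.1 ≠ b.1) →
    ∃ p, ∀ x y, x ≠ y → ∀ p' a b, pt p' a = τ x → pt p' b = τ y → a.1 ≠ b.1 → p' = p

/-- PIECE DES: designs from lines -/
def P_DES : Prop := ∀ (n s p q κ L : ℕ), p.Prime → 2 ≤ s → s ≤ p → s * p * q ≤ n → 1 ≤ q →
  s * p ≤ 2 ^ L → (3 * L + 5) ^ 2 * (L + 2) ≤ κ →
  ∃ P : ℕ, p ^ 2 ≤ s ^ 2 * P ∧ Nonempty (Des n s q P κ)

open Classical in
/-- PIECE BLK: the hard distribution (compare `H559R10.gap_block`) -/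
def P_BLK : Prop := ∀ {κ s b c S P n : ℕ} (_ : 2 ≤ κ) (_ : κ + 1 ≤ s) (_ : 2 ≤ b) (_ : 1 ≤ c)
    (_ : 0 < P) (_ : Des n s (2 ^ b) P κ)
    (_ : 8 * c * (64 * ((κ + 1) * b * κ * κ)) ≤ 2 ^ b)
    (_ : 4 * c * (S * H559R4.apx2 κ b ^ 2) ≤ 2 ^ ((κ + 1) * b)),
    ∃ (Λ : Type) (_ : Fintype Λ) (_ : Nonempty Λ) (x : Λ → Sym2 (Fin n) → Bool),
      (∀ l, H559R10.PromiseGap s (κ + 1) (x l)) ∧
      ∀ (N : ℕ) (C : H520R2.NM.Circuit (Sym2 (Fin n)) N) (out : H520R2.NM.Wire (Sym2 (Fin n)) N),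
        C.size + C.fanins.sum ≤ S → c * (C.fanins.map (· + 1)).prod ≤ P →
        2 * c * (univ.filter (fun l =>
          H559R10.RightGap s (κ + 1) (x l) (out.eval (x l) (C.vals (x l))))).card <
          (c + 2) * Fintype.card Λ

/-- The constant pairs: the vertices `r, ..., r + u - 1` are joined to all smaller vertices, and
there is a bipartite graph between `[r + u, r + u + q)` and `[r + u + q, n)`. -/
def Pads {n : ℕ} (r u q : ℕ) (T : Finset (W953.KC.Prs n)) : Prop :=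
  (∀ p : W953.KC.Prs n, r ≤ p.1.2.1 → p.1.2.1 < r + u → p ∈ T) ∧
  ∀ p ∈ T, r ≤ p.1.2.1 ∧ (r + u ≤ p.1.2.1 →
    r + u ≤ p.1.1.1 ∧ p.1.1.1 < r + u + q ∧ r + u + q ≤ p.1.2.1)

/-- PIECE SUB: a graph `z` with `r` vertices in a graph with `n` vertices, with `u` universal vertices
and some further edges -/
def P_SUB : Prop := ∀ (n r u q : ℕ) (e : W953.KC.Prs n ≃ Fin (n.choose 2))
    (T : Finset (W953.KC.Prs n)), r + u ≤ n → Pads r u q T → ∀ z : Sym2 (Fin r) → Bool,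
  (T.card ≤ W953.NW.wt (W953.KC.sx (W953.KC.psub e T r) z) ∧
    W953.NW.wt (W953.KC.sx (W953.KC.psub e T r) z) ≤ T.card + r ^ 2) ∧
  ∀ k, 3 ≤ k → ((W953.KC.gr e (W953.KC.sx (W953.KC.psub e T r) z)).CliqueFree (k + u) ↔
      (SimpleGraph.fromEdgeSet {c | z c = true}).CliqueFree k)

/-- PIECE PAD: such sets of pairs exist with every size `m` between `u * (r + u)` and `q ^ 2` -/
def P_PAD : Prop := ∀ (n r u q m : ℕ), r + u + 2 * q ≤ n → u * (r + u) ≤ m → m ≤ q ^ 2 →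
  ∃ T : Finset (W953.KC.Prs n), T.card = m ∧ Pads r u q T

/-- There are randomised circuits of polynomial size which tell the graphs with a clique of `s n`
vertices from the graphs with no clique of `k n` vertices, with error probability at most `1 / 3`. -/
def PolyAll (k s : ℕ → ℕ) : Prop :=
  ∃ a : ℕ, ∀ n : ℕ, 2 ≤ n → ∃ R : RandCircuit (n.choose 2),
    (∀ o, (R.C o).size ≤ n ^ a) ∧ ∀ x, 2 / 3 ≤ R.prob (Right (s n) (k n) x)

/-- There are such circuits with at most `t n` NOT gates if, for each `m`, the circuit has to be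
right only for the graphs with at least `m` and less than `m + W n` edges. -/
def PolyOn (k s : ℕ → ℕ) (t W : ℕ → ℕ) : Prop :=
  ∃ a : ℕ, ∀ n : ℕ, 2 ≤ n → ∀ m : ℕ, ∃ R : RandCircuit (n.choose 2),
    (∀ o, (R.C o).nots ≤ t n ∧ (R.C o).size ≤ n ^ a) ∧
      ∀ x, m ≤ edges x → edges x < m + W n → 2 / 3 ≤ R.prob (Right (s n) (k n) x)

/-- PIECE EQ: windows shorter than `2 ^ t` are as good as everything (compare
`W2helper86.KQ.on_of_all`, `all_of_on`) -/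
def P_EQ : Prop := ∀ (k s t W : ℕ → ℕ), (∀ n, 1 ≤ W n ∧ W n ≤ 2 ^ t n) →
  (PolyOn k s t W ↔ PolyAll k s)

/-- PIECE NUM: the choice of the parameters -/
def P_NUM : Prop := ∃ A : ℕ, ∀ (g w ℓ : ℕ), 1 ≤ w → 2 ≤ ℓ → ∃ κ b : ℕ, 2 ≤ κ ∧ 2 ≤ b ∧
  (3 * ℓ + 5) ^ 2 * (ℓ + 2) ≤ κ ∧ κ + 1 ≤ (w * ℓ) ^ A ∧
  8 * w * (64 * ((κ + 1) * b * κ * κ)) ≤ 2 ^ b ∧
  4 * w * (2 ^ w * H559R4.apx2 κ b ^ 2) ≤ 2 ^ ((κ + 1) * b) ∧
  256 * w * (κ + 1 + g) ^ 4 * (2 ^ b) ^ 2 ≤ ((g + 1) * w * ℓ) ^ A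

/-- FINAL: windows longer than `2 ^ t` by a polylogarithmic factor are impossible -/
def P_LOW : Prop := ∃ A : ℕ, ∀ (n k g t w W m : ℕ), 2 ≤ n → 1 ≤ w →
  (w * (Nat.log 2 n + 1)) ^ A ≤ k → k * n ≤ m → 25 * m ≤ n ^ 2 → W ≤ n ^ 2 →
  ∀ R : RandCircuit (n.choose 2), (∀ o, (R.C o).nots ≤ t ∧ (R.C o).size ≤ 2 ^ w) →
    (∀ x, m ≤ edges x → edges x < m + W → 1 / 2 + 1 / (w : ℝ) ≤ R.prob (Right (k + g) k x)) →
    W ≤ 2 ^ t * ((g + 1) * w * (Nat.log 2 n + 1)) ^ A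

end Pool.Agent.W2helper26.CN
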