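import Pool.Agent.W2helper26.CN.Defs

/-!
# The lower bound: assembly
-/

set_option autoImplicit false

namespace Pool.Agent.W2helper26.CN

open Finset Pool.Agent Pool.Agent.W2helper86.KQ Pool.Agent.W953.KC

/-- arithmetic of the choice of `r` -/
lemma arith {n t w s q W Z : ℕ} (hw : 1 ≤ w) (hs : 2 ≤ s) (hq : 1 ≤ q) (hZ : 256 * w * s ^ 4 * q ^ 2 ≤ Z)
    (hW : 2 ^ t * Z < W) (hWn : W ≤ n ^ 2) : ∃ r p : ℕ, p.Prime ∧ 4 * r ≤ n ∧ r ^ 2 < W ∧
      s * p * q ≤ r ∧ s ≤ p ∧ w * 2 ^ t * s ^ 2 < p ^ 2 := by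
  obtain ⟨y, hy⟩ : ∃ y, y = Nat.sqrt W := ⟨_, rfl⟩
  have h1 : y * y ≤ W := by rw [hy]; exact Nat.sqrt_le W
  have h2 : W < (y + 1) * (y + 1) := by rw [hy]; exact Nat.lt_succ_sqrt W
  have hyn : y ≤ n := by
    by_contra hcon
    push Not at hcon
    have := Nat.mul_lt_mul'' hcon hcon
    nlinarith
  have ht : 1 ≤ 2 ^ t := Nat.one_le_two_pow
  have hZ1 : 256 ≤ Z := by
    have h3 : 1 ≤ w * s ^ 4 * q ^ 2 := by
      have : 0 < w * s ^ 4 * q ^ 2 := by positivity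
      omega
    nlinarith
  have hW1 : 256 ≤ W := by nlinarith
  have hy16 : 16 ≤ y := by
    by_contra hcon
    push Not at hcon
    have : (y + 1) * (y + 1) ≤ 16 * 16 := Nat.mul_le_mul (by omega) (by omega)
    omega
  obtain ⟨r, hr⟩ : ∃ r, r = y / 4 := ⟨_, rfl⟩
  have hr1 : 4 * r ≤ y := by omega
  have hr2 : y + 1 ≤ 4 * r + 4 := by omega
  have hr4 : 4 ≤ r := by omega
  have hW64 : W < 64 * r ^ 2 := by
    have h3 : (y + 1) * (y + 1) ≤ (4 * r + 4) * (4 * r + 4) := Nat.mul_le_mul hr2 hr2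
    nlinarith
  have hrr : 4 * 2 ^ t * w * s ^ 4 * q ^ 2 < r ^ 2 := by
    have h3 : 2 ^ t * (256 * w * s ^ 4 * q ^ 2) ≤ 2 ^ t * Z := Nat.mul_le_mul_left _ hZ
    have h4 : 2 ^ t * (256 * w * s ^ 4 * q ^ 2) = 64 * (4 * 2 ^ t * w * s ^ 4 * q ^ 2) := by ring
    omega
  have hrs : 2 * s ^ 2 * q < r := by
    by_contra hcon
    push Not at hcon
    have h3 : r ^ 2 ≤ (2 * s ^ 2 * q) ^ 2 := Nat.pow_le_pow_left hcon 2
    have h4 : (2 * s ^ 2 * q) ^ 2 = 4 * s ^ 4 * q ^ 2 := by ring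
    have h5 : 4 * s ^ 4 * q ^ 2 ≤ 4 * 2 ^ t * w * s ^ 4 * q ^ 2 := by
      have h6 : 1 ≤ 2 ^ t * w := Nat.mul_pos ht hw
      calc 4 * s ^ 4 * q ^ 2 = 4 * 1 * s ^ 4 * q ^ 2 := by ring
        _ ≤ 4 * (2 ^ t * w) * s ^ 4 * q ^ 2 := by gcongr
        _ = _ := by ring
    omega
  have hsq : 0 < 2 * s * q := by positivity
  have hN : 2 * s * q ≤ r := by
    have h3 : 2 * s * q * 1 ≤ 2 * s * q * s := Nat.mul_le_mul_left _ (by omega)
    have h4 : 2 * s * q * s = 2 * s ^ 2 * q := by ring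
    omega
  obtain ⟨N, hNd⟩ : ∃ N, N = r / (2 * s * q) := ⟨_, rfl⟩
  have hN0 : N ≠ 0 := by
    rw [hNd]
    exact (Nat.div_pos hN hsq).ne'
  obtain ⟨p, hp, hp1, hp2⟩ := Nat.exists_prime_lt_and_le_two_mul N hN0
  have hNr : N * (2 * s * q) ≤ r := by rw [hNd]; exact Nat.div_mul_le_self _ _
  have hpr : r < p * (2 * s * q) := by
    have h3 : r < (N + 1) * (2 * s * q) := by
      rw [hNd]
      exact Nat.lt_mul_of_div_lt (Nat.lt_succ_self _) hsq
    exact lt_of_lt_of_le h3 (Nat.mul_le_mul_right _ hp1)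
  refine ⟨r, p, hp, by omega, ?_, ?_, ?_, ?_⟩
  · have : 16 * r ^ 2 ≤ W := by nlinarith
    nlinarith
  · calc s * p * q ≤ s * (2 * N) * q := by gcongr
      _ = N * (2 * s * q) := by ring
      _ ≤ r := hNr
  · by_contra hcon
    push Not at hcon
    have h3 : p * (2 * s * q) ≤ s * (2 * s * q) := Nat.mul_le_mul_right _ hcon.le
    have h4 : s * (2 * s * q) = 2 * s ^ 2 * q := by ring
    omega
  · by_contra hcon
    push Not at hcon
    have h3 : r ^ 2 < (p * (2 * s * q)) ^ 2 := Nat.pow_lt_pow_left hpr (by norm_num)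
    have h4 : (p * (2 * s * q)) ^ 2 = p ^ 2 * (4 * s ^ 2 * q ^ 2) := by ring
    have h5 : p ^ 2 * (4 * s ^ 2 * q ^ 2) ≤ (w * 2 ^ t * s ^ 2) * (4 * s ^ 2 * q ^ 2) :=
      Nat.mul_le_mul_right _ hcon
    have h6 : (w * 2 ^ t * s ^ 2) * (4 * s ^ 2 * q ^ 2) = 4 * 2 ^ t * w * s ^ 4 * q ^ 2 := by ring
    omega

theorem low (hDES : P_DES) (hBLK : P_BLK) (hSUB : P_SUB) (hPAD : P_PAD) (hNUM : P_NUM) : P_LOW := by
  classical
  obtain ⟨A, hA⟩ := hNUM
  refine ⟨A, ?_⟩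
  intro n k g t w W m hn hw hk hkm hm hWn R hR hx
  by_contra hcon
  push Not at hcon
  obtain ⟨ℓ, hℓ⟩ : ∃ ℓ, ℓ = Nat.log 2 n + 1 := ⟨_, rfl⟩
  rw [← hℓ] at hk hcon
  have hℓ2 : 2 ≤ ℓ := by
    have : 0 < Nat.log 2 n := Nat.log_pos (by norm_num) hn
    omega
  obtain ⟨κ, b, hκ, hb, hκL, hκk, hq, hS, hZ⟩ := hA g w ℓ hw hℓ2
  obtain ⟨s, hs⟩ : ∃ s, s = κ + 1 + g := ⟨_, rfl⟩
  rw [← hs] at hZ
  have hq1 : 1 ≤ 2 ^ b := Nat.one_le_two_pow
  obtain ⟨r, p, hp, hrn, hrW, hspq, hsp, hPw⟩ := arith (n := n) hw (by omega : 2 ≤ s) hq1 hZ hcon hWn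
  have hp1 : 1 ≤ p := hp.one_le
  have hsp2 : s * p ≤ 2 ^ ℓ := by
    have h1 : s * p ≤ s * p * 2 ^ b := Nat.le_mul_of_pos_right _ (by positivity)
    have h2 : n < 2 ^ ℓ := by rw [hℓ]; exact Nat.lt_pow_succ_log_self (by norm_num) n
    omega
  obtain ⟨P, hP, ⟨D⟩⟩ := hDES r s p (2 ^ b) κ ℓ hp (by omega) hsp hspq hq1 hsp2 hκL
  have hPw' : w * 2 ^ t < P := by
    have h1 : s ^ 2 * (w * 2 ^ t) < s ^ 2 * P := by
      calc s ^ 2 * (w * 2 ^ t) = w * 2 ^ t * s ^ 2 := by ring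
        _ < p ^ 2 := hPw
        _ ≤ s ^ 2 * P := hP
    exact Nat.lt_of_mul_lt_mul_left h1
  obtain ⟨Λ, hΛ1, hΛ2, z, -, hz⟩ := hBLK (κ := κ) (s := s) (b := b) (c := w) (S := 2 ^ w) (P := P)
    (n := r) hκ (by omega) hb hw (by omega) D hq hS
  have hkk : κ + 1 ≤ k := hκk.trans hk
  obtain ⟨u, hu⟩ : ∃ u, u = k - (κ + 1) := ⟨_, rfl⟩
  have hn0 : 0 < n := by omega
  have h25 : 25 * k ≤ n := by
    have h1 : 25 * k * n ≤ n * n := by nlinarith
    exact Nat.le_of_mul_le_mul_right h1 hn0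
  have hk1 : 3 ≤ k := by omega
  have hpad1 : r + u + 2 * (n / 4) ≤ n := by omega
  have hpad2 : u * (r + u) ≤ m := by
    refine le_trans ?_ hkm
    exact Nat.mul_le_mul (by omega) (by omega)
  have hpad3 : m ≤ (n / 4) ^ 2 := by
    have h1 : n ≤ 5 * (n / 4) := by omega
    have h2 : n ^ 2 ≤ 25 * (n / 4) ^ 2 := by
      calc n ^ 2 ≤ (5 * (n / 4)) ^ 2 := Nat.pow_le_pow_left h1 2
        _ = 25 * (n / 4) ^ 2 := by ring
    omega
  obtain ⟨T, hTc, hT⟩ := hPAD n r u (n / 4) m hpad1 hpad2 hpad3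
  have hsub := hSUB n r u (n / 4) (pairNo n) T (by omega) hT
  letI := R.fin
  have hw0 : (0 : ℝ) < w := by exact_mod_cast hw
  have hΛ0 : (0 : ℝ) < Fintype.card Λ := by exact_mod_cast Fintype.card_pos
  obtain ⟨l, hl⟩ := H559R8.rand_of_dist' (1 / 2 + 1 / (w : ℝ))
    (fun o l => H559R10.RightGap s (κ + 1) (z l)
      ((outOf (psub (pairNo n) T r) (R.C o)).eval (z l)
        ((build (psub (pairNo n) T r) (R.C o) (R.C o).size).vals (z l)))) R.w R.nonneg R.sum_one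
    (fun o => by
      have h1 := hz _ (build (psub (pairNo n) T r) (R.C o) (R.C o).size)
        (outOf (psub (pairNo n) T r) (R.C o)) (by
          rw [build_size]
          exact (hR o).2) (by
          rw [build_prod]
          calc w * 2 ^ (R.C o).nots ≤ w * 2 ^ t :=
                Nat.mul_le_mul_left _ (Nat.pow_le_pow_right (by norm_num) (hR o).1)
            _ ≤ P := hPw'.le)
      have h2 : 2 * (w : ℝ) * ((univ.filter (fun l => H559R10.RightGap s (κ + 1) (z l)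
          ((outOf (psub (pairNo n) T r) (R.C o)).eval (z l)
          ((build (psub (pairNo n) T r) (R.C o) (R.C o).size).vals (z l))))).card : ℝ) <
          ((w : ℝ) + 2) * Fintype.card Λ := by exact_mod_cast h1
      calc ((univ.filter (fun l => H559R10.RightGap s (κ + 1) (z l)
          ((outOf (psub (pairNo n) T r) (R.C o)).eval (z l)
          ((build (psub (pairNo n) T r) (R.C o) (R.C o).size).vals (z l))))).card : ℝ)
          < (((w : ℝ) + 2) * Fintype.card Λ) / (2 * w) := by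
            rw [lt_div_iff₀ (by positivity), mul_comm]
            exact h2
        _ = (1 / 2 + 1 / (w : ℝ)) * Fintype.card Λ := by field_simp)
  obtain ⟨⟨h1, h2⟩, h3⟩ := hsub (z l)
  rw [hTc] at h1 h2
  have hx' := hx (sx (psub (pairNo n) T r) (z l)) h1 (lt_of_le_of_lt h2 (by omega))
  refine absurd hx' (not_le.2 (lt_of_le_of_lt (le_of_eq ?_) hl))
  unfold RandCircuit.prob
  apply Finset.sum_congr ?_ (fun _ _ => rfl)
  apply Finset.filter_congr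
  intro o _
  have e1 : k + g = s + u := by omega
  have e2 : k = κ + 1 + u := by omega
  unfold Right H559R10.RightGap
  rw [outOf_eval, graph_eq, e1, h3 s (by omega)]
  conv_lhs => rw [e2]
  rw [h3 (κ + 1) (by omega)]

end Pool.Agent.W2helper26.CN
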